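import Pool.Agent.Helper14.MR.Cake

/-! Parts R16 and R16' of the MR project. -/

namespace Pool.Agent.Helper94.MR

open Classical Set Filter Topology Pool.Agent.Helper14.MR

/-- the form of a point of a copy -/
theorem copy_form {m : ℕ} {j : Fin m} {x : Fin m × Fin 4 → ℝ} (hx : x ∈ copy j) :
    ∃ a b : Fin 4, a ≠ b ∧ ∃ t ∈ Icc (0 : ℝ) 1, x (j, a) = 1 - t ∧ x (j, b) = t ∧
      ∀ c, c ≠ a → c ≠ b → x (j, c) = 0 := by
  obtain ⟨a, b, t, ht, rfl⟩ := hx
  by_cases hab : a = b
  · subst hab
    obtain ⟨b, hb⟩ : ∃ b : Fin 4, b ≠ a := by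
      by_cases h : a = 0
      · exact ⟨1, by rw [h]; decide⟩
      · exact ⟨0, fun h' => h h'.symm⟩
    refine ⟨a, b, hb.symm, 0, ⟨le_rfl, zero_le_one⟩, ?_, ?_, ?_⟩
    · simp [seg]
    · simp [seg, hb]
    · intro c hca _
      simp [seg, hca]
  · refine ⟨a, b, hab, t, ht, ?_, ?_, ?_⟩
    · simp [seg, hab]
    · have : ¬ b = a := fun h => hab h.symm
      simp [seg, this]
    · intro c hca hcb
      simp [seg, hca, hcb]

theorem cell_zero {n : ℕ} {c : ℝ → ℕ} (hc : Cell n c) : c 0 = 0 :=
  (hc.zero 0 ⟨le_rfl, zero_le_one⟩).mpr rfl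

theorem cell_one {n : ℕ} {c : ℝ → ℕ} (hc : Cell n c) : c 1 = n := by
  have h := hc.refl 0 ⟨le_rfl, zero_le_one⟩
  rw [cell_zero hc] at h
  simpa using h

/-- a function on `Fin 4` with two given values and zero elsewhere is a point -/
theorem isPt_of_pair {n : ℕ} {f : Fin 4 → ℕ} {a b : Fin 4} (hab : a ≠ b) (h : f a + f b = n)
    (h0 : ∀ c, c ≠ a → c ≠ b → f c = 0) : IsPt n f := by
  constructor
  · have hs : ∑ c, f c = n := by
      rw [← Finset.sum_subset (Finset.subset_univ {a, b})]
      · rw [Finset.sum_pair hab, h]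
      · intro c _ hc
        simp only [Finset.mem_insert, Finset.mem_singleton, not_or] at hc
        exact h0 c hc.1 hc.2
    rw [Fin.sum_univ_four] at hs
    exact hs
  · intro p q r hpq hpr hqr
    by_cases h1 : p = a ∨ p = b
    · by_cases h2 : q = a ∨ q = b
      · right; right
        refine h0 r ?_ ?_
        · rintro rfl
          rcases h1 with h1 | h1
          · exact hpr h1
          · rcases h2 with h2 | h2
            · exact hqr h2
            · exact hpq (h1.trans h2.symm)
        · rintro rfl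
          rcases h1 with h1 | h1
          · rcases h2 with h2 | h2
            · exact hpq (h1.trans h2.symm)
            · exact hqr h2
          · exact hpr h1
      · right; left
        push Not at h2
        exact h0 q h2.1 h2.2
    · left
      push Not at h1
      exact h0 p h1.1 h1.2

/-- the discrete image of a point -/
theorem exists_image {m n : ℕ} {c : ℝ → ℕ} (hc : Cell n c) {j : Fin m}
    {x : Fin m × Fin 4 → ℝ} (hx : x ∈ copy j) : ∃ d : Pt n, ∀ a, d.1 a = c (x (j, a)) := by
  obtain ⟨a, b, hab, t, ht, ha, hb, h0⟩ := copy_form hx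
  refine ⟨⟨fun a => c (x (j, a)), isPt_of_pair hab ?_ ?_⟩, fun _ => rfl⟩
  · show c (x (j, a)) + c (x (j, b)) = n
    rw [ha, hb]
    exact hc.refl t ht
  · intro e he1 he2
    show c (x (j, e)) = 0
    rw [h0 e he1 he2, cell_zero hc]

theorem zero_of_pair {n : ℕ} (d : Pt n) {a b : Fin 4} (hab : a ≠ b) (h : d.1 a + d.1 b = n) :
    ∀ c, c ≠ a → c ≠ b → d.1 c = 0 := by
  intro c hca hcb
  have hs : ∑ c, d.1 c = n := by
    rw [Fin.sum_univ_four]
    exact d.2.sum
  have h1 : ∑ e ∈ ({a, b, c} : Finset (Fin 4)), d.1 e ≤ ∑ e, d.1 e :=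
    Finset.sum_le_sum_of_subset (Finset.subset_univ _)
  rw [Finset.sum_insert (by
    simp only [Finset.mem_insert, Finset.mem_singleton, not_or]
    exact ⟨hab, fun h => hca h.symm⟩), Finset.sum_pair (fun h => hcb h.symm), hs] at h1
  omega

theorem pair_of_pos {n : ℕ} (e : Pt n) {a : Fin 4} (h : 1 ≤ e.1 a) :
    ∃ b, b ≠ a ∧ e.1 a + e.1 b = n := by
  by_cases h1 : ∃ b, b ≠ a ∧ e.1 b ≠ 0
  · obtain ⟨b, hb, hb0⟩ := h1
    refine ⟨b, hb, ?_⟩
    have hs : ∑ c, e.1 c = n := by
      rw [Fin.sum_univ_four]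
      exact e.2.sum
    refine Eq.trans ?_ hs
    rw [← Finset.sum_subset (Finset.subset_univ {a, b}), Finset.sum_pair hb.symm]
    intro c _ hc
    simp only [Finset.mem_insert, Finset.mem_singleton, not_or] at hc
    rcases e.2.supp a b c hb.symm (fun h => hc.1 h.symm) (fun h => hc.2 h.symm) with h2 | h2 | h2
    · omega
    · exact absurd h2 hb0
    · exact h2
  · push Not at h1
    obtain ⟨b, hb⟩ : ∃ b : Fin 4, b ≠ a := by
      by_cases h : a = 0
      · exact ⟨1, by rw [h]; decide⟩
      · exact ⟨0, fun h' => h h'.symm⟩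
    refine ⟨b, hb, ?_⟩
    have hs : ∑ c, e.1 c = n := by
      rw [Fin.sum_univ_four]
      exact e.2.sum
    refine Eq.trans ?_ hs
    rw [← Finset.sum_subset (Finset.subset_univ {a, b}), Finset.sum_pair hb.symm]
    intro c _ hc
    simp only [Finset.mem_insert, Finset.mem_singleton, not_or] at hc
    exact h1 c hc.1

theorem adj_or_eq {n : ℕ} (d e : Pt n) {a b : Fin 4} (hab : a ≠ b) (hd : d.1 a + d.1 b = n)
    (he : e.1 a + e.1 b = n) (h1 : d.1 a ≤ e.1 a + 1) (h2 : e.1 a ≤ d.1 a + 1) :
    d = e ∨ Adj d e ∨ Adj e d := by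
  have zd := zero_of_pair d hab hd
  have ze := zero_of_pair e hab he
  rcases lt_trichotomy (d.1 a) (e.1 a) with h | h | h
  · right; right
    refine ⟨a, b, hab, by omega, by omega, fun c hca hcb => ⟨ze c hca hcb, zd c hca hcb⟩⟩
  · left
    apply Subtype.ext
    funext c
    by_cases hca : c = a
    · rw [hca, h]
    · by_cases hcb : c = b
      · rw [hcb]
        omega
      · rw [zd c hca hcb, ze c hca hcb]
  · right; left
    refine ⟨a, b, hab, by omega, by omega, fun c hca hcb => ⟨zd c hca hcb, ze c hca hcb⟩⟩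

/-- local behaviour of the discrete image -/
theorem local_image {m n : ℕ} {c : ℝ → ℕ} (hn : 1 ≤ n) (hc : Cell n c) {j : Fin m}
    {x : Fin m × Fin 4 → ℝ} (hx : x ∈ copy j) :
    ∃ ε > 0, ∀ y ∈ (copy j : Set (Fin m × Fin 4 → ℝ)), (∀ a, |y (j, a) - x (j, a)| < ε) →
      ∀ d e : Pt n, (∀ a, d.1 a = c (x (j, a))) → (∀ a, e.1 a = c (y (j, a))) →
        d = e ∨ Adj d e ∨ Adj e d := by
  obtain ⟨a, b, hab, t, ht, ha, hb, h0⟩ := copy_form hx
  have h1t : 1 - t ∈ Icc (0 : ℝ) 1 := ⟨by linarith [ht.2], by linarith [ht.1]⟩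
  obtain ⟨ε1, he1, hn1⟩ := hc.near t ht
  obtain ⟨ε2, he2, hn2⟩ := hc.near (1 - t) h1t
  have mem01 : ∀ y ∈ (copy j : Set (Fin m × Fin 4 → ℝ)), ∀ a, y (j, a) ∈ Icc (0 : ℝ) 1 := by
    intro y hy e
    obtain ⟨p, q, hpq, s, hs, hp, hq, hz⟩ := copy_form hy
    by_cases h1 : e = p
    · rw [h1, hp]
      exact ⟨by linarith [hs.2], by linarith [hs.1]⟩
    · by_cases h2 : e = q
      · rw [h2, hq]
        exact hs
      · rw [hz e h1 h2]
        exact ⟨le_rfl, zero_le_one⟩
  by_cases ht0 : t = 0
  · -- the vertex `a`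
    refine ⟨ε2, he2, fun y hy hyx d e hd he => ?_⟩
    have h1 := hn2 (y (j, a)) (mem01 y hy a) (by rw [← ha]; exact hyx a)
    rw [ht0, sub_zero, cell_one hc] at h1
    have hda : d.1 a = n := by
      rw [hd a, ha, ht0, sub_zero, cell_one hc]
    have hea : n ≤ e.1 a + 1 := by
      rw [he a]
      exact h1.2
    have hn2' : 2 ≤ n := by
      have h3 := hc.refl (1 / 2) ⟨by norm_num, by norm_num⟩
      have h4 : c (1 / 2) ≠ 0 := by
        rw [Ne, hc.zero (1 / 2) ⟨by norm_num, by norm_num⟩]
        norm_num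
      have h5 : (1 : ℝ) - 1 / 2 = 1 / 2 := by norm_num
      rw [h5] at h3
      omega
    obtain ⟨b', hb', hab'⟩ := pair_of_pos e (a := a) (by omega)
    have hd' : d.1 a + d.1 b' = n := by
      have := zero_of_pair d hab (by
        rw [hd a, hd b, ha, hb]
        exact hc.refl t ht)
      by_cases hbb : b' = b
      · rw [hbb, hda]
        have : d.1 b = 0 := by
          rw [hd b, hb, ht0, cell_zero hc]
        omega
      · rw [this b' hb' hbb]
        omega
    exact adj_or_eq d e hb'.symm hd' hab' (by omega) (by omega)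
  · by_cases ht1 : t = 1
    · -- the vertex `b`
      refine ⟨ε1, he1, fun y hy hyx d e hd he => ?_⟩
      have h1 := hn1 (y (j, b)) (mem01 y hy b) (by rw [← hb]; exact hyx b)
      rw [ht1, cell_one hc] at h1
      have hda : d.1 b = n := by
        rw [hd b, hb, ht1, cell_one hc]
      have hea : n ≤ e.1 b + 1 := by
        rw [he b]
        exact h1.2
      have hn2' : 2 ≤ n := by
        have h3 := hc.refl (1 / 2) ⟨by norm_num, by norm_num⟩
        have h4 : c (1 / 2) ≠ 0 := by
          rw [Ne, hc.zero (1 / 2) ⟨by norm_num, by norm_num⟩]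
          norm_num
        have h5 : (1 : ℝ) - 1 / 2 = 1 / 2 := by norm_num
        rw [h5] at h3
        omega
      obtain ⟨b', hb', hab'⟩ := pair_of_pos e (a := b) (by omega)
      have hd' : d.1 b + d.1 b' = n := by
        have h7 := zero_of_pair d hab (by
          rw [hd a, hd b, ha, hb]
          exact hc.refl t ht)
        by_cases hbb : b' = a
        · rw [hbb, hda]
          have : d.1 a = 0 := by
            rw [hd a, ha, ht1, sub_self, cell_zero hc]
          omega
        · rw [h7 b' hbb hb']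
          omega
      exact adj_or_eq d e hb'.symm hd' hab' (by omega) (by omega)
    · have ht0' : 0 < t := lt_of_le_of_ne ht.1 (Ne.symm ht0)
      have ht1' : t < 1 := lt_of_le_of_ne ht.2 ht1
      refine ⟨min (min ε1 ε2) (min t (1 - t)), by
        refine lt_min (lt_min he1 he2) (lt_min ht0' (by linarith)), fun y hy hyx d e hd he => ?_⟩
      have hya := hyx a
      have hyb := hyx b
      have k1 : |y (j, a) - (1 - t)| < ε2 := by
        rw [← ha]
        exact lt_of_lt_of_le hya ((min_le_left _ _).trans (min_le_right _ _))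
      have k3 : |y (j, a) - (1 - t)| < 1 - t := by
        rw [← ha]
        rw [ha] at hya
        rw [ha]
        exact lt_of_lt_of_le hya ((min_le_right _ _).trans (min_le_right _ _))
      have k4 : |y (j, b) - t| < t := by
        rw [hb] at hyb
        exact lt_of_lt_of_le hyb ((min_le_right _ _).trans (min_le_left _ _))
      have pa : 0 < y (j, a) := by
        rw [abs_lt] at k3
        linarith [k3.1]
      have pb : 0 < y (j, b) := by
        rw [abs_lt] at k4
        linarith [k4.1]
      have hde : d.1 a + d.1 b = n := by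
        rw [hd a, hd b, ha, hb]
        exact hc.refl t ht
      have hee : e.1 a + e.1 b = n := by
        have q1 : 1 ≤ e.1 a := by
          rw [he a]
          by_contra hcon
          have : c (y (j, a)) = 0 := by omega
          rw [hc.zero _ (mem01 y hy a)] at this
          linarith
        have q2 : 1 ≤ e.1 b := by
          rw [he b]
          by_contra hcon
          have : c (y (j, b)) = 0 := by omega
          rw [hc.zero _ (mem01 y hy b)] at this
          linarith
        obtain ⟨b', hb', hab'⟩ := pair_of_pos e q1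
        by_cases hbb : b' = b
        · rw [hbb] at hab'
          exact hab'
        · have := zero_of_pair e hb'.symm hab' b hab.symm (fun h => hbb h.symm)
          omega
      have h1 := hn2 (y (j, a)) (mem01 y hy a) k1
      have hda : d.1 a = c (1 - t) := by rw [hd a, ha]
      refine adj_or_eq d e hab hde hee ?_ ?_
      · rw [hda, he a]
        exact h1.2
      · rw [hda, he a]
        exact h1.1

/-- R16. connectedness is transferred to the discrete image -/
theorem R16 {m n : ℕ} {c : ℝ → ℕ} (hn : 1 ≤ n) (hc : Cell n c) (j : Fin m)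
    (P : Set (Fin m × Fin 4 → ℝ)) (hP : P ⊆ copy j) (hconn : IsConn P) :
    Conn Adj (img n c j P) := by
  rintro W ⟨d0, ⟨x0, hx0, hd0⟩, hW0⟩ hW
  rintro d ⟨x, hx, hd⟩
  obtain ⟨γ, hγ⟩ := hconn x0 hx0 x hx
  -- the locally constant function
  let F : unitInterval → Prop := fun t => ∀ e : Pt n, (∀ a, e.1 a = c (γ t (j, a))) → e ∈ W
  have hF : IsLocallyConstant F := by
    rw [IsLocallyConstant.iff_eventually_eq]
    intro t
    obtain ⟨ε, hε, hloc⟩ := local_image hn hc (hP (hγ t))
    have hev : ∀ᶠ s in 𝓝 t, ∀ a : Fin 4, |γ s (j, a) - γ t (j, a)| < ε := by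
      rw [eventually_all]
      intro a
      have hcont : Continuous fun s : unitInterval => γ s (j, a) :=
        (continuous_apply (j, a)).comp γ.continuous
      have := (Metric.tendsto_nhds.mp (hcont.tendsto t)) ε hε
      refine this.mono fun s hs => ?_
      rwa [Real.dist_eq] at hs
    refine hev.mono fun s hs => ?_
    obtain ⟨e, he⟩ := exists_image hc (hP (hγ t))
    obtain ⟨e', he'⟩ := exists_image hc (hP (hγ s))
    have hmem : e ∈ img n c j P := ⟨γ t, hγ t, he⟩
    have hmem' : e' ∈ img n c j P := ⟨γ s, hγ s, he'⟩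
    have hrel := hloc (γ s) (hP (hγ s)) hs e e' he he'
    have huniq : ∀ r : unitInterval, ∀ p q : Pt n, (∀ a, p.1 a = c (γ r (j, a))) →
        (∀ a, q.1 a = c (γ r (j, a))) → p = q := by
      intro r p q hp hq
      apply Subtype.ext
      funext a
      rw [hp a, hq a]
    have hiff : e ∈ W ↔ e' ∈ W := by
      rcases hrel with h | h | h
      · rw [h]
      · refine ⟨fun hh => hW e hmem hh e' hmem' h, fun hh => ?_⟩
        obtain ⟨a, b, hab, h1, h2, h3⟩ := h
        exact hW e' hmem' hh e hmem ⟨b, a, hab.symm, h2, h1, fun c' hc1 hc2 => ⟨(h3 c' hc2 hc1).2,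
          (h3 c' hc2 hc1).1⟩⟩
      · refine ⟨fun hh => ?_, fun hh => hW e' hmem' hh e hmem h⟩
        obtain ⟨a, b, hab, h1, h2, h3⟩ := h
        exact hW e hmem hh e' hmem' ⟨b, a, hab.symm, h2, h1, fun c' hc1 hc2 => ⟨(h3 c' hc2 hc1).2,
          (h3 c' hc2 hc1).1⟩⟩
    apply propext
    constructor
    · intro h1 p hp
      rw [huniq t p e hp he]
      exact hiff.mpr (h1 e' he')
    · intro h1 p hp
      rw [huniq s p e' hp he']
      exact hiff.mp (h1 e he)
  have h01 : F 1 = F 0 := hF.apply_eq_of_preconnectedSpace 1 0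
  have hF0 : F 0 := by
    intro e he
    have : e = d0 := by
      apply Subtype.ext
      funext a
      rw [he a, hd0 a, γ.source]
    rw [this]
    exact hW0
  have hF1 : F 1 := by
    rw [h01]
    exact hF0
  refine hF1 d fun a => ?_
  rw [γ.target]
  exact hd a

theorem sum_copy {m : ℕ} {j : Fin m} {x : Fin m × Fin 4 → ℝ} (hx : x ∈ copy j) :
    ∑ a, x (j, a) = 1 := by
  obtain ⟨a, b, hab, t, ht, ha, hb, h0⟩ := copy_form hx
  rw [← Finset.sum_subset (Finset.subset_univ {a, b})]
  · rw [Finset.sum_pair hab, ha, hb]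
    ring
  · intro c _ hc
    simp only [Finset.mem_insert, Finset.mem_singleton, not_or] at hc
    exact h0 c hc.1 hc.2

theorem sum_other {m : ℕ} {j k : Fin m} (hjk : j ≠ k) {x : Fin m × Fin 4 → ℝ}
    (hx : x ∈ copy k) : ∑ a, x (j, a) = 0 := by
  obtain ⟨a, b, t, ht, rfl⟩ := hx
  refine Finset.sum_eq_zero fun e _ => ?_
  simp [seg, hjk]

/-- R16'. a connected nonempty subset of the cake `K m` lies in one copy -/
theorem R16' {m : ℕ} (P : Set (Fin m × Fin 4 → ℝ)) (hP : P ⊆ cake (K m)) (hconn : IsConn P)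
    (hne : P.Nonempty) : ∃ j, P ⊆ copy j := by
  have hcake : ∀ x ∈ P, ∃ j : Fin m, x ∈ copy j := by
    intro x hx
    obtain ⟨a, b, t, hab, ht, rfl⟩ := hP hx
    have h1 : a.1 = b.1 := by
      rcases hab with h | h
      · rw [h]
      · exact h.1
    refine ⟨a.1, a.2, b.2, t, ht, ?_⟩
    rw [h1]
    have : (b.1, a.2) = a := by rw [← h1]
    rw [this]
  obtain ⟨x0, hx0⟩ := hne
  obtain ⟨j, hj⟩ := hcake x0 hx0
  refine ⟨j, fun x hx => ?_⟩
  obtain ⟨k, hk⟩ := hcake x hx
  by_cases hjk : j = k
  · rw [hjk]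
    exact hk
  · exfalso
    obtain ⟨γ, hγ⟩ := hconn x hx x0 hx0
    let φ : unitInterval → ℝ := fun t => ∑ a, γ t (j, a)
    have hφ : Continuous φ :=
      continuous_finset_sum _ fun a _ => (continuous_apply (j, a)).comp γ.continuous
    have hφ0 : φ 0 = 0 := by
      show ∑ a, γ 0 (j, a) = 0
      rw [γ.source]
      exact sum_other hjk hk
    have hφ1 : φ 1 = 1 := by
      show ∑ a, γ 1 (j, a) = 1
      rw [γ.target]
      exact sum_copy hj
    have hivt := intermediate_value_univ (0 : unitInterval) 1 hφ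
    rw [hφ0, hφ1] at hivt
    obtain ⟨s, hs⟩ := hivt (show (1 / 2 : ℝ) ∈ Icc (0 : ℝ) 1 from ⟨by norm_num, by norm_num⟩)
    obtain ⟨l, hl⟩ := hcake (γ s) (hγ s)
    by_cases hjl : j = l
    · have : φ s = 1 := by
        show ∑ a, γ s (j, a) = 1
        rw [hjl]
        exact sum_copy hl
      rw [this] at hs
      norm_num at hs
    · have : φ s = 0 := sum_other hjl hl
      rw [this] at hs
      norm_num at hs

end Pool.Agent.Helper94.MR
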