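import Pool.Agent.Helper94.MR.R16

/-! Part R15 of the MR project. -/

namespace Pool.Agent.Helper94.MR

open Classical Set Filter Topology Pool.Agent.Helper14.MR

theorem copy_other {m : ℕ} {j : Fin m} {x : Fin m × Fin 4 → ℝ} (hx : x ∈ copy j)
    {k : Fin m} (hk : k ≠ j) (e : Fin 4) : x (k, e) = 0 := by
  obtain ⟨a, b, t, ht, rfl⟩ := hx
  simp [seg, hk]

theorem copy_mem01 {m : ℕ} {j : Fin m} {x : Fin m × Fin 4 → ℝ} (hx : x ∈ copy j) (e : Fin 4) :
    x (j, e) ∈ Icc (0 : ℝ) 1 := by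
  obtain ⟨p, q, hpq, s, hs, hp, hq, hz⟩ := copy_form hx
  by_cases h1 : e = p
  · rw [h1, hp]
    exact ⟨by linarith [hs.2], by linarith [hs.1]⟩
  · by_cases h2 : e = q
    · rw [h2, hq]
      exact hs
    · rw [hz e h1 h2]
      exact ⟨le_rfl, zero_le_one⟩

theorem cell_eq_n {n : ℕ} {c : ℝ → ℕ} (hc : Cell n c) {t : ℝ} (ht : t ∈ Icc (0 : ℝ) 1)
    (h : c t = n) : t = 1 := by
  have h1 := hc.refl t ht
  have h2 : c (1 - t) = 0 := by omega
  have h3 := (hc.zero (1 - t) ⟨by linarith [ht.2], by linarith [ht.1]⟩).mp h2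
  linarith

theorem piece_step {m n : ℕ} {c : ℝ → ℕ} (hc : Cell n c) {a b : Fin m × Fin 4}
    (hab : IsEdge (K m) a b) {I : Set ℝ} (hI : I ⊆ Icc 0 1)
    (hcI : ∀ s ∈ Icc (0 : ℝ) 1, ∀ t ∈ Icc (0 : ℝ) 1, c s = c t → (s ∈ I ↔ t ∈ I))
    {j : Fin m} {x y : Fin m × Fin 4 → ℝ} (hx : x ∈ copy j) (hy : y ∈ copy j)
    (hxy : ∀ e, c (x (j, e)) = c (y (j, e))) (hxI : x ∈ seg a b '' I) : y ∈ seg a b '' I := by
  obtain ⟨s, hs, hsx⟩ := hxI
  obtain ⟨j1, a⟩ := a
  obtain ⟨j2, b⟩ := b
  have h12 : j1 = j2 := by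
    rcases hab with h | h
    · exact (Prod.mk.inj h).1
    · exact h.1
  subst h12
  have hxc : x ∈ copy j1 := ⟨a, b, s, hI hs, hsx.symm⟩
  have hj : j1 = j := by
    by_contra hne
    have h1 := sum_copy hxc
    have h2 : ∑ e, x (j1, e) = 0 := sum_other hne hx
    rw [h1] at h2
    exact one_ne_zero h2
  subst hj
  by_cases hab' : a = b
  · subst hab'
    have hxa : x (j1, a) = 1 := by
      rw [← hsx]
      simp [seg]
    have hya : c (y (j1, a)) = n := by
      rw [← hxy a, hxa, cell_one hc]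
    have hya1 : y (j1, a) = 1 := cell_eq_n hc (copy_mem01 hy a) hya
    refine ⟨s, hs, ?_⟩
    funext ⟨k, e⟩
    by_cases hk : k = j1
    · subst hk
      by_cases he : e = a
      · subst he
        rw [hya1]
        simp [seg]
      · have hsum := sum_copy hy
        have hle : y (k, a) + y (k, e) ≤ ∑ f, y (k, f) := by
          rw [← Finset.sum_pair (fun h => he h.symm) (f := fun f => y (k, f))]
          exact Finset.sum_le_sum_of_subset_of_nonneg (Finset.subset_univ _)
            fun f _ _ => (copy_mem01 hy f).1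
        have h0 : y (k, e) = 0 := by
          have := (copy_mem01 hy e).1
          linarith
        rw [h0]
        simp [seg, he]
    · rw [copy_other hy hk e]
      simp [seg, hk]
  · have hba : ¬ b = a := fun h => hab' h.symm
    have hx0 : ∀ e, e ≠ a → e ≠ b → x (j1, e) = 0 := by
      intro e h1 h2
      rw [← hsx]
      simp [seg, h1, h2]
    have hy0 : ∀ e, e ≠ a → e ≠ b → y (j1, e) = 0 := by
      intro e h1 h2
      have h3 : c (y (j1, e)) = 0 := by
        rw [← hxy e, hx0 e h1 h2, cell_zero hc]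
      exact (hc.zero _ (copy_mem01 hy e)).mp h3
    have hysum : y (j1, a) + y (j1, b) = 1 := by
      have hsum := sum_copy hy
      rw [← hsum, ← Finset.sum_pair hab' (f := fun f => y (j1, f))]
      refine Finset.sum_subset (Finset.subset_univ _) fun f _ hf => ?_
      simp only [Finset.mem_insert, Finset.mem_singleton, not_or] at hf
      exact hy0 f hf.1 hf.2
    have hxb : x (j1, b) = s := by
      rw [← hsx]
      simp [seg, hba]
    refine ⟨y (j1, b), ?_, ?_⟩
    · have h1 : c s = c (y (j1, b)) := by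
        rw [← hxb]
        exact hxy b
      exact (hcI s (hI hs) _ (copy_mem01 hy b) h1).mp hs
    · funext ⟨k, e⟩
      by_cases hk : k = j1
      · subst hk
        by_cases he : e = a
        · subst he
          have h1 : ((k, e) : Fin m × Fin 4) ≠ (k, b) := fun h => hab' (Prod.mk.inj h).2
          show (1 - y (k, b)) * (if (k, e) = (k, e) then (1 : ℝ) else 0) +
            y (k, b) * (if (k, e) = (k, b) then (1 : ℝ) else 0) = y (k, e)
          rw [if_pos rfl, if_neg h1]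
          linarith
        · by_cases he2 : e = b
          · subst he2
            simp [seg, he]
          · rw [hy0 e he he2]
            simp [seg, he, he2]
      · rw [copy_other hy hk e]
        simp [seg, hk]

/-- R15. a cell function adapted to finitely many pieces of `K m` (from R14) -/
theorem R15_of {m : ℕ} {ι : Type} [Fintype ι] (P : ι → Set (Fin m × Fin 4 → ℝ))
    (hP : ∀ i, IsPiece (K m) (P i))
    (R14 : ∀ (k : ℕ) (I : Fin k → Set ℝ), (∀ i, (I i).OrdConnected) →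
      ∃ (n : ℕ) (c : ℝ → ℕ), 1 ≤ n ∧ Cell n c ∧
        ∀ i, ∀ s ∈ Icc (0 : ℝ) 1, ∀ t ∈ Icc (0 : ℝ) 1, c s = c t → (s ∈ I i ↔ t ∈ I i)) :
    ∃ (n : ℕ) (c : ℝ → ℕ), 1 ≤ n ∧ Cell n c ∧
      ∀ i, ∀ j : Fin m, ∀ x ∈ copy j, ∀ y ∈ copy j, (∀ a, c (x (j, a)) = c (y (j, a))) →
        (x ∈ P i ↔ y ∈ P i) := by
  choose k a b I hI hPI using hP
  let T := Σ i : ι, Fin (k i)
  let e : T ≃ Fin (Fintype.card T) := Fintype.equivFin T
  obtain ⟨n, c, hn, hc, hcI⟩ := R14 (Fintype.card T) (fun l => I (e.symm l).1 (e.symm l).2)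
    (fun l => (hI _ _).2.1)
  refine ⟨n, c, hn, hc, ?_⟩
  have key : ∀ i, ∀ j : Fin m, ∀ x ∈ copy j, ∀ y ∈ copy j,
      (∀ a, c (x (j, a)) = c (y (j, a))) → x ∈ P i → y ∈ P i := by
    intro i j x hx y hy hxy hxP
    rw [hPI i, mem_iUnion] at hxP ⊢
    obtain ⟨l, hl⟩ := hxP
    refine ⟨l, piece_step hc (hI i l).1 (hI i l).2.2 ?_ hx hy hxy hl⟩
    have := hcI (e ⟨i, l⟩)
    rw [Equiv.symm_apply_apply] at this
    exact this
  intro i j x hx y hy hxy
  exact ⟨key i j x hx y hy hxy, key i j y hy x hx fun a => (hxy a).symm⟩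

end Pool.Agent.Helper94.MR
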